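import Pool.Agent.Y192.KC.AStm
import Pool.Agent.Y721.KZ.Zngt
import Pool.Agent.TH766.MC.A1

/-!
`Pool.Agent.Y192.KC.St_a1u`: a cover with a one-parameter group with limits is `A¹`-uniruled.
-/

set_option autoImplicit false
set_option linter.unusedVariables false
set_option linter.unusedSectionVars false

open MvPolynomial FF Pool.Agent.W602.GT IntermediateField Pool.Agent.Y192.KC Pool.Agent.Y270.KC
open Pool.Agent.Y108.KC Pool.Agent.Y721.KZ

namespace Pool.Agent.Y960.KA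

variable {n r : ℕ} {X : ZCov n r} {m : ℕ} {L : Type} [Field L] [Algebra ℂ L]
  {t : Fin (n + 1) → L} {w : Fin r → L}

theorem acore (hm : 0 < m) (hem : ∀ j, X.e j ∣ m) (hF : ZField X m L t w)
    (l : Fin (n + 1) → ℤ) (hl : ∃ i j, l i ≠ l j) (hI : ∀ f ∈ X.I, ∀ k, wp l k f ∈ X.I)
    (a0 : ℤ) (ha0 : ∀ i, a0 ≤ l i) (i0 : Fin (n + 1)) (hi0 : l i0 = a0)
    (hkG : X.G - wp l (X.q * a0) X.G ∈ X.I)
    (Dn H B S : Fin r → MvPolynomial (Fin (n + 1)) ℂ)
    (hDI : ∀ j, Dn j ∉ X.I) (hHI : ∀ j, H j ∉ X.I) (hBI : ∀ j, B j ∉ X.I) (hSI : ∀ j, S j ∉ X.I)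
    (aD aH aB aS : Fin r → ℕ) (haD : ∀ j, (Dn j).IsHomogeneous (aD j))
    (haH : ∀ j, (H j).IsHomogeneous (aH j)) (haB : ∀ j, (B j).IsHomogeneous (aB j))
    (haS : ∀ j, (S j).IsHomogeneous (aS j))
    (hFS : ∀ j, Dn j * B j ^ X.e j * X.F j - H j * S j ^ X.e j ∈ X.I) (kD kH : Fin r → ℤ)
    (hkD : ∀ j, ∀ c ∈ (Dn j).support, ∑ i, l i * c i = kD j)
    (hkH : ∀ j, ∀ c ∈ (H j).support, ∑ i, l i * c i = kH j) :
    ∃ (δ : Derivation ℂ L L) (σ : L) (E : IntermediateField ℂ L), σ ≠ 0 ∧ δ σ = σ ∧ E.FG ∧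
      E ≤ consts δ ∧ E⟮σ⟯ = ⊤ ∧
      ∀ P : Place ℂ L, (∀ c, δ c = 0 → c ≠ 0 → P.ord c = 0) → 0 ≤ P.ord σ →
        (∀ i, P.ord (t i0) ≤ P.ord (t i)) ∧
        P.ord (aeval (fun i => t i ^ m) X.G) = m * X.q * P.ord (t i0) := by
  classical
  have hchar := charL (L := L)
  have ne := t_ne hm hF 0
  set z : Fin (n + 1) → L := fun i => t i / t 0 with hz
  have hzne : ∀ i, z i ≠ 0 := fun i => div_ne_zero (t_ne hm hF i) ne
  have htz : ∀ i, t i = t 0 * z i := fun i => by rw [hz]; field_simp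
  set ρ' : Fin r → L := fun j => w j / t 0 ^ X.wt m j with hρ'
  have hwt : ∀ j, X.wt m j * X.e j = m * X.d j := fun j =>
    Nat.div_mul_cancel ((hem j).mul_right _)
  have hρe : ∀ j, ρ' j ^ X.e j = aeval (fun i => z i ^ m) (X.F j) := by
    intro j
    rw [hρ']
    simp only
    rw [div_pow, ← pow_mul, hwt, hF.eqn, ev_div hm hF (X.hF j), ← pow_mul]
    have : t 0 ^ (m * X.d j) ≠ 0 := pow_ne_zero _ ne
    exact mul_div_cancel_left₀ _ this
  have hFz : ∀ j, aeval (fun i => z i ^ m) (X.F j) ≠ 0 := fun j =>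
    ev_div_ne hm hF (X.hF j) (X.hFI j)
  have hGz : aeval (fun i => z i ^ m) X.G ≠ 0 := ev_div_ne hm hF X.hG X.hGI
  have hHz : ∀ j, aeval (fun i => z i ^ m) (H j) ≠ 0 := fun j => ev_div_ne hm hF (haH j) (hHI j)
  have hDz0 : ∀ j, aeval (fun i => z i ^ m) (Dn j) ≠ 0 := fun j =>
    ev_div_ne hm hF (haD j) (hDI j)
  have hBz : ∀ j, aeval (fun i => z i ^ m) (B j) ≠ 0 := fun j => ev_div_ne hm hF (haB j) (hBI j)
  have hSz : ∀ j, aeval (fun i => z i ^ m) (S j) ≠ 0 := fun j => ev_div_ne hm hF (haS j) (hSI j)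
  obtain ⟨D, hDz⟩ := field_der hm hF hI
  have hDzm : ∀ i, Eig D (m * (l i - l 0)) (z i ^ m) := fun i => (hDz i).pow m
  have hDA : ∀ (A : MvPolynomial (Fin (n + 1)) ℂ) (kA : ℤ) (dA : ℕ), A.IsHomogeneous dA →
      (∀ c ∈ A.support, ∑ i, l i * c i = kA) →
      Eig D (m * (kA - l 0 * dA)) (aeval (fun i => z i ^ m) A) := by
    intro A kA dA hA hkA
    refine Eig.aeval hDzm fun c hc => ?_
    have h1 := hkA c hc
    have h2 := sum_of_hom hA hc
    have h3 : ∑ i, (c i : ℤ) = dA := by exact_mod_cast h2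
    calc ∑ i, m * (l i - l 0) * (c i : ℤ)
        = m * (∑ i, l i * c i - l 0 * ∑ i, (c i : ℤ)) := by
          rw [Finset.mul_sum, ← Finset.sum_sub_distrib, Finset.mul_sum]
          exact Finset.sum_congr rfl fun i _ => by ring
      _ = _ := by rw [h1, h3]
  -- the functions `w'`
  set w' : Fin r → L := fun j => ρ' j * aeval (fun i => z i ^ m) (B j) /
    aeval (fun i => z i ^ m) (S j) with hw'
  have hFHS : ∀ j, aeval (fun i => z i ^ m) (Dn j) * aeval (fun i => z i ^ m) (B j) ^ X.e j *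
      aeval (fun i => z i ^ m) (X.F j) =
      aeval (fun i => z i ^ m) (H j) * aeval (fun i => z i ^ m) (S j) ^ X.e j := by
    intro j
    have h1 := ev_div_mem hm hF (hFS j)
    rw [map_sub, map_mul, map_mul, map_mul, map_pow, map_pow, sub_eq_zero] at h1
    exact h1
  have hw'e : ∀ j, w' j ^ X.e j =
      aeval (fun i => z i ^ m) (H j) * (aeval (fun i => z i ^ m) (Dn j))⁻¹ := by
    intro j
    rw [hw']
    simp only
    rw [div_pow, mul_pow, hρe, ← div_eq_mul_inv, div_eq_div_iff (pow_ne_zero _ (hSz j)) (hDz0 j),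
      ← hFHS j]
    ring
  have hw'0 : ∀ j, w' j ≠ 0 := fun j h => mul_ne_zero (hHz j) (inv_ne_zero (hDz0 j))
    (by rw [← hw'e, h, zero_pow (X.he j).ne'])
  set cj : Fin r → ℤ := fun j => ((m / X.e j : ℕ) : ℤ) *
    ((kH j - l 0 * aH j) - (kD j - l 0 * aD j)) with hcj
  have hDw : ∀ j, Eig D (cj j) (w' j) := by
    intro j
    refine Eig.root (hw'0 j) (X.he j) ?_
    rw [hw'e]
    have h1 : (X.e j : ℤ) * cj j = m * (kH j - l 0 * aH j) + -(m * (kD j - l 0 * aD j)) := by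
      have h2 : ((m / X.e j : ℕ) : ℤ) * X.e j = m := by
        exact_mod_cast Nat.div_mul_cancel (hem j)
      rw [hcj]
      simp only
      rw [← mul_assoc, mul_comm (X.e j : ℤ), h2]
      ring
    rw [h1]
    exact (hDA _ _ _ (haH j) (hkH j)).mul (hDA _ _ _ (haD j) (hkD j)).inv
  -- all generators and their weights
  set ρ : Fin (n + 1) ⊕ Fin r → L := Sum.elim z w' with hρ
  set a : Fin (n + 1) ⊕ Fin r → ℤ := Sum.elim (fun i => l i - l 0) cj with ha
  have hρ0 : ∀ x, ρ x ≠ 0 := by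
    rintro (i | j)
    · exact hzne i
    · exact hw'0 j
  have hDρ : ∀ x, Eig D (a x) (ρ x) := by
    rintro (i | j)
    · exact hDz i
    · exact hDw j
  obtain ⟨g1, hg1⟩ : ∃ g : ℤ, Ideal.span (Set.range a) = Ideal.span {g} :=
    (IsPrincipalIdealRing.principal (Ideal.span (Set.range a))).principal
  obtain ⟨g, hgn, hg⟩ : ∃ g : ℤ, 0 ≤ g ∧ Ideal.span (Set.range a) = Ideal.span {g} := by
    refine ⟨|g1|, abs_nonneg _, ?_⟩
    rw [hg1]
    rcases abs_choice g1 with h | h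
    · rw [h]
    · rw [h, Ideal.span_singleton_neg]
  have hdvd : ∀ x, g ∣ a x := by
    intro x
    rw [← Ideal.mem_span_singleton, ← hg]
    exact Ideal.subset_span ⟨x, rfl⟩
  have hg0 : g ≠ 0 := by
    rintro rfl
    obtain ⟨i, j, hij⟩ := hl
    have h1 := hdvd (Sum.inl i)
    have h2 := hdvd (Sum.inl j)
    rw [zero_dvd_iff] at h1 h2
    change l i - l 0 = 0 at h1
    change l j - l 0 = 0 at h2
    omega
  have hgpos : 0 < g := lt_of_le_of_ne hgn (Ne.symm hg0)
  obtain ⟨b, hb⟩ : ∃ b : Fin (n + 1) ⊕ Fin r → ℤ, ∑ x, b x * a x = g := by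
    have h1 : g ∈ Ideal.span (Set.range a) := by
      rw [hg]; exact Ideal.mem_span_singleton_self g
    obtain ⟨b, hb⟩ := (Submodule.mem_span_range_iff_exists_fun ℤ).1 h1
    exact ⟨b, hb⟩
  choose β hβ using hdvd
  set σ : L := ∏ x, ρ x ^ b x with hσ
  have hσ0 : σ ≠ 0 := Finset.prod_ne_zero_iff.2 fun x _ => zpow_ne_zero _ (hρ0 x)
  have hDσ : Eig D g σ := by
    rw [← hb]
    exact Eig.prod _ _ _ fun x _ => (hDρ x).zpow (b x)
  have hgL : (g : L) ≠ 0 := by exact_mod_cast hg0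
  set δ : Derivation ℂ L L := ((g : ℂ)⁻¹) • D with hδ
  have hδD : ∀ f, δ f = (g : L)⁻¹ * D f := by
    intro f
    rw [hδ, Derivation.smul_apply, Algebra.smul_def]
    simp
  have hδσ : δ σ = σ := by
    rw [hδD, show D σ = (g : L) * σ from hDσ]
    field_simp
  have hδ0 : ∀ f, Eig D 0 f → δ f = 0 := by
    intro f hf
    rw [hδD, show D f = ((0 : ℤ) : L) * f from hf]
    simp
  -- eigenvectors of weight `β * g`
  have hquot : ∀ (f : L) (k : ℤ), Eig D (g * k) f → δ (f / σ ^ k) = 0 := by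
    intro f k hf
    apply hδ0
    rw [div_eq_mul_inv]
    have h1 := hf.mul (hDσ.zpow k).inv
    have h2 : g * k + -(k * g) = 0 := by ring
    rwa [h2] at h1
  set E : IntermediateField ℂ L := IntermediateField.adjoin ℂ (Set.range fun x => ρ x / σ ^ β x)
    with hEdef
  have hEle : E ≤ consts δ := by
    rw [hEdef, IntermediateField.adjoin_le_iff]
    rintro _ ⟨x, rfl⟩
    exact hquot _ (β x) (by rw [← hβ]; exact hDρ x)
  refine ⟨δ, σ, E, hσ0, hδσ, ?_, hEle, ?_, ?_⟩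
  · -- finitely generated
    refine ⟨Finset.univ.image fun x => ρ x / σ ^ β x, ?_⟩
    rw [Finset.coe_image, Finset.coe_univ, Set.image_univ]
  · -- generation
    have hρm : ∀ x, ρ x ∈ E⟮σ⟯ := by
      intro x
      have h1 : ρ x = (ρ x / σ ^ β x) * σ ^ β x := by
        have : σ ^ β x ≠ 0 := zpow_ne_zero _ hσ0
        field_simp
      rw [h1]
      refine mul_mem ?_ (zpow_mem (IntermediateField.mem_adjoin_simple_self _ _) _)
      exact E⟮σ⟯.algebraMap_mem (⟨ρ x / σ ^ β x, IntermediateField.subset_adjoin _ _ ⟨x, rfl⟩⟩ : E)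
    have hAm : ∀ A : MvPolynomial (Fin (n + 1)) ℂ, aeval (fun i => z i ^ m) A ∈ E⟮σ⟯ := by
      intro A
      rw [aeval_def, eval₂_eq']
      refine sum_mem fun c _ => mul_mem ?_ (prod_mem fun i _ =>
        pow_mem (pow_mem (hρm (Sum.inl i)) _) _)
      exact ((E⟮σ⟯).restrictScalars ℂ).algebraMap_mem _
    have hle : (⊤ : IntermediateField ℂ L) ≤ (E⟮σ⟯).restrictScalars ℂ := by
      rw [← hF.gen, IntermediateField.adjoin_le_iff]
      rintro _ (⟨i, rfl⟩ | ⟨j, rfl⟩)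
      · exact hρm (Sum.inl i)
      · change ρ' j ∈ E⟮σ⟯
        have h1 : ρ' j = w' j * aeval (fun i => z i ^ m) (S j) /
            aeval (fun i => z i ^ m) (B j) := by
          rw [hw']
          simp only
          rw [div_mul_cancel₀ _ (hSz j), mul_div_cancel_right₀ _ (hBz j)]
        rw [h1]
        exact div_mem (mul_mem (hρm (Sum.inr j)) (hAm _)) (hAm _)
    rw [eq_top_iff]
    intro x _
    exact hle (IntermediateField.mem_top (x := x))
  · -- places
    intro P hP hPσ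
    have hord : ∀ (f : L) (k : ℤ), f ≠ 0 → Eig D (g * k) f → P.ord f = k * P.ord σ := by
      intro f k hf0 hf
      have hs : σ ^ k ≠ 0 := zpow_ne_zero _ hσ0
      have h1 := hP _ (hquot f k hf) (div_ne_zero hf0 hs)
      rw [P.ord_div hf0 hs, P.ord_zpow] at h1
      omega
    have hzi : ∀ i, P.ord (z i) = β (Sum.inl i) * P.ord σ := by
      intro i
      exact hord (z i) (β (Sum.inl i)) (hzne i) (by rw [← hβ]; exact hDz i)
    have hti : ∀ i, P.ord (t i) = P.ord (t 0) + β (Sum.inl i) * P.ord σ := by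
      intro i
      rw [htz i, P.ord_mul ne (hzne i), hzi]
    have hβl : ∀ i, l i - l 0 = g * β (Sum.inl i) := fun i => hβ (Sum.inl i)
    have hβ0 : ∀ i, β (Sum.inl i0) ≤ β (Sum.inl i) := by
      intro i
      have h1 := hβl i
      have h2 := hβl i0
      have h3 := ha0 i
      rw [← hi0] at h3
      have h4 : g * β (Sum.inl i0) ≤ g * β (Sum.inl i) := by rw [← h1, ← h2]; omega
      exact le_of_mul_le_mul_left h4 hgpos
    refine ⟨fun i => ?_, ?_⟩
    · rw [hti i, hti i0]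
      have := mul_le_mul_of_nonneg_right (hβ0 i) hPσ
      omega
    · have hGw : aeval (fun i => z i ^ m) X.G = aeval (fun i => z i ^ m) (wp l (X.q * a0) X.G) := by
        have h1 := ev_div_mem hm hF hkG
        rw [map_sub, sub_eq_zero] at h1
        exact h1
      have h1 := hDA (wp l (X.q * a0) X.G) (X.q * a0) X.q (wp_isHom X.hG) (wp_hom l _ X.G)
      rw [← hGw] at h1
      have h2 : (m : ℤ) * (X.q * a0 - l 0 * X.q) = g * (m * X.q * β (Sum.inl i0)) := by
        have h3 := hβl i0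
        rw [hi0] at h3
        linear_combination (m : ℤ) * X.q * h3
      rw [h2] at h1
      have h3 := hord _ _ hGz h1
      rw [ev_div hm hF X.hG, P.ord_mul (pow_ne_zero _ (pow_ne_zero _ ne)) hGz, h3, P.ord_pow,
        P.ord_pow, hti i0]
      ring

theorem t_a1u : St_a1u := by
  intro n r X m hm hem hRed L _ _ t w hF d hd
  obtain ⟨l, hl, hI, ⟨a0, ha0, ⟨i0, hi0⟩, hkG⟩, hH⟩ := hRed
  choose D H B S hDI hHI hBI hSI hDhom hHhom haD haH haB haS hFS using hH
  choose kD hkD using hDhom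
  choose kH hkH using hHhom
  choose aD haD using haD
  choose aH haH using haH
  choose aB haB using haB
  choose aS haS using haS
  obtain ⟨δ, σ, E, h1, h2, h3, h4, h5, h6⟩ := acore hm hem hF l hl hI a0 ha0 i0 hi0 hkG D H B S
    hDI hHI hBI hSI aD aH aB aS haD haH haB haS hFS kD kH hkD hkH
  refine Pool.Agent.TH766.MC.a1_of_delta hd δ h1 h2 E h3 h4 h5 fun P hP hPσ hoff => ?_
  obtain ⟨h7, h8⟩ := h6 P hP hPσ
  have := hoff (P.ord (t i0)) h7 ⟨i0, rfl⟩
  rw [h8] at this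
  exact lt_irrefl _ this

end Pool.Agent.Y960.KA
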